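import Pool.Agent.Helper20.KP.StH

/-!
# Project KP (MP_26be5b_ag), module HBD of chapter H: a bound for homogeneous functions
-/

set_option autoImplicit false

namespace Pool.Agent.Helper28.KP

open MeasureTheory Filter Pool.Agent.Helper52.KP Pool.Agent.Helper20.KP
open scoped Topology

private lemma hbd_poly {m : ℕ} (P : MvPolynomial (Fin m) ℂ) (n : ℕ) (hP : P.IsHomogeneous n) :
    ∃ C : ℝ, 0 ≤ C ∧ ∀ y : Fin m → ℂ, ‖MvPolynomial.eval y P‖ ≤ C * ‖y‖ ^ n := by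
  refine ⟨∑ d ∈ P.support, ‖P.coeff d‖, Finset.sum_nonneg fun _ _ => norm_nonneg _, fun y => ?_⟩
  rw [MvPolynomial.eval_eq, Finset.sum_mul]
  refine (norm_sum_le _ _).trans (Finset.sum_le_sum fun d hd => ?_)
  rw [norm_mul, norm_prod]
  refine mul_le_mul_of_nonneg_left ?_ (norm_nonneg _)
  have h1 : ∑ i ∈ d.support, d i = n := by
    have h2 := hP (MvPolynomial.mem_support_iff.mp hd)
    rw [show (1 : Fin m → ℕ) = fun _ => 1 from rfl, ← Finsupp.degree_eq_weight_one] at h2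
    exact h2
  rw [← h1, ← Finset.prod_pow_eq_pow_sum]
  refine Finset.prod_le_prod (fun i _ => norm_nonneg _) fun i _ => ?_
  rw [norm_pow]
  exact pow_le_pow_left₀ (norm_nonneg _) (norm_le_pi_norm y i) _

private lemma hbd_root (a b C : ℝ) (rd : ℕ) (hr : 0 < rd) (hb : 0 ≤ b) (hC : 0 ≤ C)
    (h : a ^ rd ≤ ∑ i ∈ Finset.range rd, C * b ^ (rd - i) * a ^ i) :
    a ≤ (1 + C * rd) * b := by
  by_cases hab : a ≤ b
  · have : 0 ≤ C * rd * b := by positivity
    nlinarith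
  · push Not at hab
    have ha' : 0 < a := lt_of_le_of_lt hb hab
    have h1 : ∑ i ∈ Finset.range rd, C * b ^ (rd - i) * a ^ i ≤
        ∑ i ∈ Finset.range rd, C * b * a ^ (rd - 1) := by
      refine Finset.sum_le_sum fun i hi => ?_
      have hi' := Finset.mem_range.mp hi
      have e1 : rd - i = (rd - 1 - i) + 1 := by omega
      have e2 : rd - 1 = (rd - 1 - i) + i := by omega
      have h2 : b ^ (rd - 1 - i) ≤ a ^ (rd - 1 - i) := pow_le_pow_left₀ hb hab.le _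
      calc C * b ^ (rd - i) * a ^ i = C * b * (b ^ (rd - 1 - i) * a ^ i) := by
            rw [e1, pow_succ]; ring
        _ ≤ C * b * (a ^ (rd - 1 - i) * a ^ i) := by gcongr
        _ = C * b * a ^ (rd - 1) := by rw [← pow_add, ← e2]
    rw [Finset.sum_const, Finset.card_range, nsmul_eq_mul] at h1
    have h3 : a ^ rd = a * a ^ (rd - 1) := by
      rw [← pow_succ', Nat.sub_add_cancel hr]
    have h4 : a * a ^ (rd - 1) ≤ (C * rd * b) * a ^ (rd - 1) := by
      rw [← h3]; refine (h.trans h1).trans (le_of_eq ?_); ring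
    have h5 : a ≤ C * rd * b := le_of_mul_le_mul_right h4 (pow_pos ha' _)
    nlinarith

theorem hHBD (h1 : StHFX) (h2 : StHPL) (h3 : StHCO) (h4 : StHOC) : StHBD := by
  intro D hD k F hF hk
  obtain ⟨Y, Dc, rd, hFB⟩ := h1 D hD
  choose P hP hPc using fun i : Fin (rd + 1) =>
    h2 D hD Y Dc rd hFB k F hF hk i.1 (Nat.lt_succ_iff.mp i.2)
  choose C hC0 hC using fun i : Fin (rd + 1) => hbd_poly (P i) _ (hP i)
  set C' : ℝ := ∑ i, C i with hC'
  have hC'0 : 0 ≤ C' := Finset.sum_nonneg fun i _ => hC0 i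
  have hCle : ∀ i, C i ≤ C' := fun i =>
    Finset.single_le_sum (f := C) (fun i _ => hC0 i) (Finset.mem_univ i)
  obtain ⟨-, h3b, -⟩ := h3 D hD Y Dc rd hFB F hF
  -- the bound over `Dc ≠ 0`
  have key : ∀ x ∈ D.O, ev Dc (Y x) ≠ 0 → ‖F x‖ ≤ (1 + C' * rd) * ‖Y x‖ ^ k := by
    intro x hx hDx
    obtain ⟨-, -, hone, -, hsum, -⟩ := h3b (Y x) hDx
    have hs := hsum x ⟨hx, rfl⟩
    rw [Finset.sum_range_succ, hone, one_mul] at hs
    have hs' : F x ^ rd = - ∑ i ∈ Finset.range rd, D.co Y F i (Y x) * F x ^ i := by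
      linear_combination hs
    refine hbd_root ‖F x‖ (‖Y x‖ ^ k) C' rd hFB.pos (by positivity) hC'0 ?_
    rw [← norm_pow, hs', norm_neg]
    refine (norm_sum_le _ _).trans (Finset.sum_le_sum fun i hi => ?_)
    have hi' := Finset.mem_range.mp hi
    rw [norm_mul, norm_pow]
    refine mul_le_mul_of_nonneg_right ?_ (by positivity)
    have h5 := hPc ⟨i, by omega⟩ (Y x) hDx
    have h6 := hC ⟨i, by omega⟩ (Y x)
    simp only at h5 h6
    rw [h5, ← pow_mul]
    refine h6.trans (mul_le_mul_of_nonneg_right (hCle _) (by positivity))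
  -- the linear bound
  set L := LinearMap.toContinuousLinearMap Y with hL
  have hLx : ∀ x, ‖Y x‖ ≤ ‖L‖ * ‖x‖ := fun x => L.le_opNorm x
  refine ⟨(1 + C' * rd) * ‖L‖ ^ k, fun x hx => ?_⟩
  have hcl := hFB.dns Dc hFB.D0 hx
  have hcont := (h4 D hD).1 F hF
  have hsub : {x | x ∈ D.O ∧ ev Dc (Y x) ≠ 0} ⊆ D.O := fun x hx => hx.1
  refine ContinuousWithinAt.closure_le hcl ((hcont x hx).mono hsub).norm
    (g := fun x => (1 + C' * rd) * ‖L‖ ^ k * ‖x‖ ^ k) (by fun_prop) fun y hy => ?_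
  have hpos : 0 ≤ 1 + C' * rd := by positivity
  calc ‖F y‖ ≤ (1 + C' * rd) * ‖Y y‖ ^ k := key y hy.1 hy.2
    _ ≤ (1 + C' * rd) * (‖L‖ * ‖y‖) ^ k := by
        gcongr; exact hLx y
    _ = (1 + C' * rd) * ‖L‖ ^ k * ‖y‖ ^ k := by rw [mul_pow]; ring

end Pool.Agent.Helper28.KP
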