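import Pool.Agent.Helper85.KP.StE
import Pool.Agent.Helper19.KP.M_STK

/-! # Module EBD (bounds for Rellich) -/

set_option autoImplicit false

namespace Pool.Agent.Helper28.KP

open MeasureTheory Filter Pool.Agent.Helper52.KP Pool.Agent.Helper85.KP Pool.Agent.Helper19.KP
open scoped ContDiff ComplexOrder Topology

section Calc

variable {m : ℕ}

private theorem cf_near_zero {χ : (Fin m → ℂ) → ℝ} {w : Fin m → ℂ} (hw : w ∉ tsupport χ) :
    cf χ =ᶠ[𝓝 w] fun _ => 0 := by
  filter_upwards [(isClosed_tsupport χ).isOpen_compl.mem_nhds hw] with y hy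
  simp [cf, image_eq_zero_of_notMem_tsupport hy]

private theorem dbdz_off {χ : (Fin m → ℂ) → ℝ} {z : Fin m → ℂ} (hz : z ∉ tsupport χ) (j : Fin m) :
    db j (dz j (cf χ)) z = 0 := by
  have hev : ∀ᶠ w in 𝓝 z, w ∉ tsupport χ :=
    (isClosed_tsupport χ).isOpen_compl.mem_nhds hz
  have e : dz j (cf χ) =ᶠ[𝓝 z] fun _ => 0 := by
    filter_upwards [hev] with w hw
    rw [stk_dz_congr j _ _ w (cf_near_zero hw), stk_dz_const]
  rw [stk_db_congr j _ _ z e, stk_db_const]

private theorem cutMul {U : Set (Fin m → ℂ)} (hU : IsOpen U) {F p : (Fin m → ℂ) → ℝ}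
    (hF : ContDiff ℝ ∞ F) (hs : tsupport F ⊆ U) (hp : ContDiffOn ℝ ∞ p U) :
    ContDiff ℝ ∞ (fun z => F z * p z) := by
  rw [contDiff_iff_contDiffAt]
  intro z
  by_cases hz : z ∈ U
  · exact hF.contDiffAt.mul (hp.contDiffAt (hU.mem_nhds hz))
  · have hz' : z ∉ tsupport F := fun h => hz (hs h)
    have e : (fun z => F z * p z) =ᶠ[𝓝 z] fun _ => (0 : ℝ) := by
      filter_upwards [(isClosed_tsupport F).isOpen_compl.mem_nhds hz'] with y hy
      rw [image_eq_zero_of_notMem_tsupport hy, zero_mul]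
    exact contDiffAt_const.congr_of_eventuallyEq e

private theorem ibp2 (hIBP : StIBP) {U : Set (Fin m → ℂ)} (hU : IsOpen U)
    {χ p : (Fin m → ℂ) → ℝ} (hχ : ContDiff ℝ ∞ χ) (hc : HasCompactSupport χ)
    (hs : tsupport χ ⊆ U) (hp : ContDiffOn ℝ ∞ p U) (j : Fin m) :
    ∫ z, hes p z j j * (χ z : ℂ) = ∫ z, (p z : ℂ) * db j (dz j (cf χ)) z := by
  obtain ⟨F, hF, -, hFU, hF1⟩ := stk_cut (K := tsupport χ) hc hU hs
  set q : (Fin m → ℂ) → ℝ := fun z => F z * p z with hq
  have hqs : ContDiff ℝ ∞ q := cutMul hU hF hFU hp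
  have hcq : ContDiff ℝ ∞ (cf q) := Complex.ofRealCLM.contDiff.comp hqs
  have hcχ : ContDiff ℝ ∞ (cf χ) := Complex.ofRealCLM.contDiff.comp hχ
  have hdbq : ContDiff ℝ ∞ (db j (cf q)) := by
    rw [← contDiffOn_univ]; exact stk_cdb isOpen_univ j _ hcq.contDiffOn
  have hdzχ : ContDiff ℝ ∞ (dz j (cf χ)) := by
    rw [← contDiffOn_univ]; exact stk_cdz isOpen_univ j _ hcχ.contDiffOn
  have hccχ : HasCompactSupport (cf χ) := hc.comp_left (g := fun x : ℝ => (x : ℂ)) (by simp)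
  have hcdzχ : HasCompactSupport (dz j (cf χ)) := by
    refine HasCompactSupport.of_support_subset_isCompact (K := tsupport χ) hc ?_
    intro z hz
    by_contra hz'
    apply hz
    rw [stk_dz_congr j _ _ z (cf_near_zero hz'), stk_dz_const]
  have h1 := (hIBP m j (db j (cf q)) (cf χ) (hdbq.of_le (by simp)) (hcχ.of_le (by simp)) hccχ).1
  have h2 := (hIBP m j (cf q) (dz j (cf χ)) (hcq.of_le (by simp)) (hdzχ.of_le (by simp))
    hcdzχ).2
  have e1 : ∫ z, hes p z j j * (χ z : ℂ) = ∫ z, dz j (db j (cf q)) z * cf χ z := by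
    apply integral_congr_ae
    refine ae_of_all _ fun z => ?_
    by_cases hz : z ∈ tsupport χ
    · have e : ∀ᶠ w in 𝓝 z, db j (cf q) w = db j (cf p) w := by
        filter_upwards [(hF1 z hz).eventually_nhds] with w hw
        apply stk_db_congr
        filter_upwards [hw] with y hy
        show ((F y * p y : ℝ) : ℂ) = (p y : ℂ)
        rw [hy, one_mul]
      show dz j (db j (cf p)) z * (χ z : ℂ) = dz j (db j (cf q)) z * (χ z : ℂ)
      rw [stk_dz_congr j (db j (cf q)) (db j (cf p)) z e]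
    · show hes p z j j * (χ z : ℂ) = dz j (db j (cf q)) z * (χ z : ℂ)
      rw [image_eq_zero_of_notMem_tsupport hz]
      simp
  have e2 : ∫ z, (p z : ℂ) * db j (dz j (cf χ)) z = ∫ z, cf q z * db j (dz j (cf χ)) z := by
    apply integral_congr_ae
    refine ae_of_all _ fun z => ?_
    by_cases hz : z ∈ tsupport χ
    · show (p z : ℂ) * db j (dz j (cf χ)) z = ((F z * p z : ℝ) : ℂ) * db j (dz j (cf χ)) z
      rw [(hF1 z hz).self_of_nhds, one_mul]
    · show (p z : ℂ) * db j (dz j (cf χ)) z = cf q z * db j (dz j (cf χ)) z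
      rw [dbdz_off hz, mul_zero, mul_zero]
  rw [e1, h1, h2, e2, neg_neg]

private theorem hess_int (hIBP : StIBP) {U K : Set (Fin m → ℂ)} (hU : IsOpen U)
    {χ p : (Fin m → ℂ) → ℝ} (hχ : ContDiff ℝ ∞ χ) (hc : HasCompactSupport χ)
    (hs : tsupport χ ⊆ U) (hχ0 : ∀ z, 0 ≤ χ z) (hK : IsCompact K) (hχ1 : ∀ z ∈ K, χ z = 1)
    (hp : ContDiffOn ℝ ∞ p U) (j : Fin m) (hpos : ∀ z ∈ U, 0 ≤ (hes p z j j).re) (P : ℝ)
    (hP : ∀ z ∈ tsupport χ, |p z| ≤ P) :
    ∫ z in K, (hes p z j j).re ≤ P * ∫ z, ‖db j (dz j (cf χ)) z‖ := by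
  have hcont : ContinuousOn (fun z => hes p z j j) U :=
    (stk_cdz hU j _ (stk_cdb hU j _ (stk_cf p hp))).continuousOn
  have hcχ : ContDiff ℝ ∞ (cf χ) := Complex.ofRealCLM.contDiff.comp hχ
  have hint : Integrable (fun z => hes p z j j * (χ z : ℂ)) := by
    rw [← integrableOn_iff_integrable_of_support_subset (s := tsupport χ)]
    · refine ContinuousOn.integrableOn_compact hc ?_
      exact (hcont.mono hs).mul (Complex.continuous_ofReal.comp hχ.continuous).continuousOn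
    · intro z hz
      by_contra hz'
      apply hz
      simp [image_eq_zero_of_notMem_tsupport hz']
  have hre : (∫ z, hes p z j j * (χ z : ℂ)).re = ∫ z, (hes p z j j).re * χ z := by
    rw [← RCLike.re_eq_complex_re, ← integral_re hint]
    apply integral_congr_ae
    refine ae_of_all _ fun z => ?_
    simp
  have hint' : Integrable (fun z => (hes p z j j).re * χ z) := by
    have h := hint.re
    refine h.congr (ae_of_all _ fun z => ?_)
    simp
  have hnn : ∀ z, 0 ≤ (hes p z j j).re * χ z := by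
    intro z
    by_cases hz : z ∈ tsupport χ
    · exact mul_nonneg (hpos z (hs hz)) (hχ0 z)
    · rw [image_eq_zero_of_notMem_tsupport hz, mul_zero]
  have hsub : K ⊆ tsupport χ := by
    intro z hz
    apply subset_tsupport
    simp [hχ1 z hz]
  have hd : Integrable (fun z => ‖db j (dz j (cf χ)) z‖) := by
    have hdd : ContDiff ℝ ∞ (db j (dz j (cf χ))) := by
      rw [← contDiffOn_univ]
      exact stk_cdb isOpen_univ j _ (stk_cdz isOpen_univ j _ hcχ.contDiffOn)
    have hcs : HasCompactSupport (db j (dz j (cf χ))) := by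
      refine HasCompactSupport.of_support_subset_isCompact (K := tsupport χ) hc ?_
      intro z hz
      by_contra hz'
      exact hz (dbdz_off hz' j)
    exact (hdd.continuous.integrable_of_hasCompactSupport hcs).norm
  calc ∫ z in K, (hes p z j j).re = ∫ z in K, (hes p z j j).re * χ z := by
        apply setIntegral_congr_fun hK.measurableSet
        intro z hz
        show (hes p z j j).re = (hes p z j j).re * χ z
        rw [hχ1 z hz, mul_one]
    _ ≤ ∫ z, (hes p z j j).re * χ z :=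
        setIntegral_le_integral hint' (ae_of_all _ hnn)
    _ = (∫ z, hes p z j j * (χ z : ℂ)).re := hre.symm
    _ ≤ ‖∫ z, hes p z j j * (χ z : ℂ)‖ := Complex.re_le_norm _
    _ = ‖∫ z, (p z : ℂ) * db j (dz j (cf χ)) z‖ := by rw [ibp2 hIBP hU hχ hc hs hp j]
    _ ≤ ∫ z, P * ‖db j (dz j (cf χ)) z‖ := by
        refine norm_integral_le_of_norm_le (hd.const_mul P) (ae_of_all _ fun z => ?_)
        by_cases hz : z ∈ tsupport χ
        · rw [norm_mul, Complex.norm_real, Real.norm_eq_abs]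
          exact mul_le_mul_of_nonneg_right (hP z hz) (norm_nonneg _)
        · rw [dbdz_off hz]; simp
    _ = P * ∫ z, ‖db j (dz j (cf χ)) z‖ := integral_const_mul _ _

end Calc

private theorem openU (C : Cone) : IsOpen C.U :=
  isOpen_ne_fun (MvPolynomial.continuous_eval C.Δ) continuous_const

private theorem contPPn {m N : ℕ} (n : ℕ) (s : Fin N → MvPolynomial (Fin m) ℂ)
    (lam : Fin N → ℕ) (t : ℝ) : Continuous (PPn n s lam t) := by
  unfold PPn
  refine continuous_finsetSum _ fun j _ => ?_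
  exact continuous_const.mul ((MvPolynomial.continuous_eval (s j)).norm.pow 2)

private theorem contPP {m N : ℕ} (s : Fin N → MvPolynomial (Fin m) ℂ)
    (lam : Fin N → ℕ) (t : ℝ) : Continuous (PP s lam t) := by
  unfold PP
  refine continuous_finsetSum _ fun j _ => ?_
  exact continuous_const.mul ((MvPolynomial.continuous_eval (s j)).norm.pow 2)

private theorem algW (a m' d X Y Z W L Λ : ℝ) (hm : 1 ≤ m') (hd : 0 < d) (ha : a = m' / d)
    (haL : a * L ≤ Λ) (hL : 0 ≤ L) (hW : 0 < W) (hX : 0 ≤ X) (hY0 : 0 ≤ Y)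
    (hY : Y ≤ L ^ 2 * W)
    (hU : a * (X / W) - a ^ 2 * (Y / W - (Z / W) ^ 2) ≤ 1) :
    1 / d * X + (1 / d) ^ 2 * Y ≤ (1 + 2 * Λ ^ 2) * W := by
  have ha0 : 0 < a := by rw [ha]; exact div_pos (by linarith) hd
  have hda : 1 / d ≤ a := by
    rw [ha]; exact div_le_div_of_nonneg_right hm hd.le
  have hd0 : 0 < 1 / d := by positivity
  have h1 : a * (X / W) ≤ 1 + a ^ 2 * (Y / W) := by
    have h2 : 0 ≤ a ^ 2 * (Z / W) ^ 2 := by positivity
    linarith
  have h3 : Y / W ≤ L ^ 2 := by rwa [div_le_iff₀ hW]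
  have h4 : a ^ 2 * L ^ 2 ≤ Λ ^ 2 := by
    have h5 : 0 ≤ a * L := by positivity
    calc a ^ 2 * L ^ 2 = (a * L) ^ 2 := by ring
      _ ≤ Λ ^ 2 := pow_le_pow_left₀ h5 haL 2
  have h6 : a * (X / W) ≤ 1 + Λ ^ 2 := by
    have h7 : a ^ 2 * (Y / W) ≤ a ^ 2 * L ^ 2 := mul_le_mul_of_nonneg_left h3 (by positivity)
    linarith
  have h8 : a * X ≤ (1 + Λ ^ 2) * W := by
    have h9 : a * X = a * (X / W) * W := by field_simp
    rw [h9]
    exact mul_le_mul_of_nonneg_right h6 hW.le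
  have h10 : 1 / d * X ≤ a * X := mul_le_mul_of_nonneg_right hda hX
  have h11 : (1 / d) ^ 2 * Y ≤ a ^ 2 * (L ^ 2 * W) := by
    apply mul_le_mul (pow_le_pow_left₀ hd0.le hda 2) hY hY0 (by positivity)
  have h12 : a ^ 2 * (L ^ 2 * W) ≤ Λ ^ 2 * W := by
    calc a ^ 2 * (L ^ 2 * W) = (a ^ 2 * L ^ 2) * W := by ring
      _ ≤ Λ ^ 2 * W := mul_le_mul_of_nonneg_right h4 hW.le
  nlinarith

private theorem iwBound (C : Cone) (D N : ℕ) (s : Fin N → MvPolynomial (Fin C.m) ℂ)
    (lam : Fin N → ℕ) (t L Λ : ℝ) (hm : 1 ≤ C.m) (hD : 0 < D) (hL : 0 ≤ L)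
    (hmeas : MeasurableSet (S1 C))
    (hPP : ∀ z ∈ C.U, 0 < PP s lam t z)
    (hF : ∀ z ∈ C.U, 0 ≤ F1 s lam t z ∧ F1 s lam t z ≤ L ∧ 0 ≤ F2 s lam t z ∧
      F2 s lam t z ≤ L ^ 2)
    (hw : IntegrableOn (wt C D s lam t) (S1 C) C.nu) (hw0 : ∀ z ∈ C.U, 0 < wt C D s lam t z)
    (hW : 0 < Iw C D s lam t (fun _ => 1))
    (haL : (C.m / (2 * D) : ℝ) * L ≤ Λ) (hU : U2 C D s lam t ≤ 1) :
    Iw C D s lam t (fun z => F2 s lam t z / (2 * D) + (F1 s lam t z / (2 * D)) ^ 2) ≤
      (1 + 2 * Λ ^ 2) * Iw C D s lam t (fun _ => 1) := by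
  have hsub : S1 C ⊆ C.U := fun z hz => hz.1
  have c1 : ContinuousOn (F1 s lam t) C.U := by
    unfold F1
    exact (contPPn 1 s lam t).continuousOn.div (contPP s lam t).continuousOn
      fun z hz => (hPP z hz).ne'
  have c2 : ContinuousOn (F2 s lam t) C.U := by
    unfold F2
    exact ((contPPn 2 s lam t).continuousOn.div (contPP s lam t).continuousOn
      fun z hz => (hPP z hz).ne').sub (c1.pow 2)
  have hm1 : AEStronglyMeasurable (F1 s lam t) (C.nu.restrict (S1 C)) :=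
    (c1.mono hsub).aestronglyMeasurable hmeas
  have hm2 : AEStronglyMeasurable (F2 s lam t) (C.nu.restrict (S1 C)) :=
    (c2.mono hsub).aestronglyMeasurable hmeas
  have i2 : Integrable (fun z => F2 s lam t z * wt C D s lam t z) (C.nu.restrict (S1 C)) := by
    refine Integrable.mono' (hw.const_mul (L ^ 2)) (hm2.mul hw.aestronglyMeasurable) ?_
    refine (ae_restrict_iff' hmeas).2 (ae_of_all _ fun z hz => ?_)
    obtain ⟨-, -, h3, h4⟩ := hF z (hsub hz)
    have hwz := hw0 z (hsub hz)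
    rw [Real.norm_of_nonneg (mul_nonneg h3 hwz.le)]
    exact mul_le_mul_of_nonneg_right h4 hwz.le
  have hF1sq : ∀ z ∈ C.U, F1 s lam t z ^ 2 ≤ L ^ 2 := fun z hz =>
    pow_le_pow_left₀ (hF z hz).1 (hF z hz).2.1 2
  have i1 : Integrable (fun z => F1 s lam t z ^ 2 * wt C D s lam t z)
      (C.nu.restrict (S1 C)) := by
    refine Integrable.mono' (hw.const_mul (L ^ 2)) ((hm1.pow 2).mul hw.aestronglyMeasurable) ?_
    refine (ae_restrict_iff' hmeas).2 (ae_of_all _ fun z hz => ?_)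
    have hwz := hw0 z (hsub hz)
    rw [Real.norm_of_nonneg (mul_nonneg (sq_nonneg _) hwz.le)]
    exact mul_le_mul_of_nonneg_right (hF1sq z (hsub hz)) hwz.le
  have hd : (0 : ℝ) < 2 * D := by
    have : (0 : ℝ) < D := by exact_mod_cast hD
    linarith
  have hsplit : Iw C D s lam t (fun z => F2 s lam t z / (2 * D) +
      (F1 s lam t z / (2 * D)) ^ 2) =
      1 / (2 * D) * Iw C D s lam t (F2 s lam t) +
        (1 / (2 * D)) ^ 2 * Iw C D s lam t (fun z => F1 s lam t z ^ 2) := by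
    unfold Iw
    rw [← integral_const_mul, ← integral_const_mul, ← integral_add (i2.const_mul _)
      (i1.const_mul _)]
    apply integral_congr_ae
    refine ae_of_all _ fun z => ?_
    simp only
    ring
  have hX : 0 ≤ Iw C D s lam t (F2 s lam t) := by
    unfold Iw
    refine setIntegral_nonneg hmeas fun z hz => ?_
    exact mul_nonneg (hF z (hsub hz)).2.2.1 (hw0 z (hsub hz)).le
  have hY0 : 0 ≤ Iw C D s lam t (fun z => F1 s lam t z ^ 2) := by
    unfold Iw
    refine setIntegral_nonneg hmeas fun z hz => ?_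
    exact mul_nonneg (sq_nonneg _) (hw0 z (hsub hz)).le
  have hY : Iw C D s lam t (fun z => F1 s lam t z ^ 2) ≤
      L ^ 2 * Iw C D s lam t (fun _ => 1) := by
    unfold Iw
    rw [← integral_const_mul]
    refine setIntegral_mono_on i1 ?_ hmeas fun z hz => ?_
    · refine (hw.const_mul (L ^ 2)).congr (ae_of_all _ fun z => ?_)
      simp
    · rw [one_mul]
      exact mul_le_mul_of_nonneg_right (hF1sq z (hsub hz)) (hw0 z (hsub hz)).le
  rw [hsplit]
  exact algW (C.m / (2 * D)) C.m (2 * D) _ _ (Iw C D s lam t (F1 s lam t)) _ L Λ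
    (by exact_mod_cast hm) hd rfl haL hL hW hX hY0 hY hU

private theorem amgm {x a b : ℝ} (ha : 0 ≤ a) (hb : 0 ≤ b) (h : x ^ 2 ≤ a * b) :
    x ≤ (a + b) / 2 := by
  by_contra hc
  push Not at hc
  nlinarith [sq_nonneg (a - b)]

private theorem expBound {p u J P c : ℝ} (hp : 0 ≤ p) (hJ : 0 < J) (hP : P ≤ u + 1)
    (hc : Real.exp (u + 1) / J ≤ c) : p ≤ c * (p * Real.exp (-P) * J) := by
  have h1 : Real.exp (-(u + 1)) ≤ Real.exp (-P) := Real.exp_le_exp.mpr (by linarith)
  have h2 : Real.exp (u + 1) / J * (p * Real.exp (-(u + 1)) * J) = p := by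
    have h3 : Real.exp (u + 1) * Real.exp (-(u + 1)) = 1 := by
      rw [← Real.exp_add]; simp
    field_simp
    calc Real.exp (u + 1) * p * Real.exp (-(u + 1)) =
        p * (Real.exp (u + 1) * Real.exp (-(u + 1))) := by ring
      _ = p := by rw [h3, mul_one]
  have h4 : p * Real.exp (-(u + 1)) * J ≤ p * Real.exp (-P) * J :=
    mul_le_mul_of_nonneg_right (mul_le_mul_of_nonneg_left h1 hp) hJ.le
  have h5 : 0 ≤ Real.exp (u + 1) / J := by positivity
  calc p = Real.exp (u + 1) / J * (p * Real.exp (-(u + 1)) * J) := h2.symm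
    _ ≤ Real.exp (u + 1) / J * (p * Real.exp (-P) * J) := mul_le_mul_of_nonneg_left h4 h5
    _ ≤ c * (p * Real.exp (-P) * J) := by
        apply mul_le_mul_of_nonneg_right hc
        have : 0 ≤ Real.exp (-P) := (Real.exp_pos _).le
        positivity

theorem hEBD : StECS → StEIN → StEWT → StEPO → StEVA → StIBP → StCAL → StEBD := by
  intro hECS hEIN hEWT hEPO hEVA hIBP _ C r Λ k N s lam hG hS t ht0 ht hU2 K hKU hK
  have hUo : IsOpen C.U := openU C
  have hm1 : 1 ≤ C.m := by have := hG.hm; have := hG.hn; omega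
  have hD : ∀ i, 0 < C.n * r * k i := fun i =>
    Nat.mul_pos (Nat.mul_pos hG.hn hS.hr) (hS.kpos i)
  have hL0 : ∀ i, (0 : ℝ) < (Λ : ℝ) * k i := fun i =>
    mul_pos (by exact_mod_cast hS.hΛ) (by exact_mod_cast hS.kpos i)
  have hbd : ∀ i j, (lam i j : ℝ) ≤ (Λ : ℝ) * k i := fun i j => by exact_mod_cast hS.bd i j
  have E := fun i z hz => hEPO C hG (C.n * r * k i) (N i) (hD i) (s i) (lam i)
    (hS.onb i).span ((Λ : ℝ) * k i) (hL0 i) (hbd i) z hz (t i) (ht0 i)
  have Q := fun i => hECS C hG (C.n * r * k i) (N i) (hD i) (s i) (lam i)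
    (hS.onb i).span (t i) (ht0 i)
  have R := fun i => hEIN C hG (C.n * r * k i) (N i) (hD i) (s i) (lam i)
    (hS.onb i).span (t i) (ht0 i)
  obtain ⟨-, -, -, hW4⟩ := hEWT C r Λ k N s lam hG hS t ht0 ht
  obtain ⟨hI1, hI2, -⟩ := hEVA C r Λ k N s lam hG hS t ht0 ht
  -- the set S1
  have huc : ContinuousOn C.u C.U := hG.usm.continuousOn
  have hS1o : IsOpen (S1 C) := by
    have h := huc.isOpen_inter_preimage hUo (isOpen_Iio (a := (1 : ℝ)))
    exact h
  -- the number a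
  have haL : ∀ i, (C.m / (2 * ((C.n * r * k i : ℕ) : ℝ)) : ℝ) * ((Λ : ℝ) * k i) ≤ Λ := by
    intro i
    have hmr : (C.m : ℝ) = 2 * C.n := by exact_mod_cast hG.hm
    have hn0 : (0 : ℝ) < C.n := by exact_mod_cast hG.hn
    have hr1 : (1 : ℝ) ≤ r := by exact_mod_cast hS.hr
    have hk0 : (0 : ℝ) < k i := by exact_mod_cast hS.kpos i
    have hΛ0 : (0 : ℝ) ≤ Λ := Nat.cast_nonneg _
    have e : (C.m / (2 * ((C.n * r * k i : ℕ) : ℝ)) : ℝ) * ((Λ : ℝ) * k i) = Λ / r := by
      rw [hmr]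
      push_cast
      field_simp
    rw [e]
    exact div_le_self hΛ0 hr1
  -- bound of the energies
  have hA : ∀ᶠ i in atTop, ∫ z in C.U, psi2 C (C.n * r * k i) (s i) (lam i) (t i) z *
      Real.exp (-psi C (C.n * r * k i) (s i) (lam i) (t i) z) * ‖ev C.J z‖ ^ 2 ≤
      C.m * C.m.factorial * ((1 + 2 * (Λ : ℝ) ^ 2) * (I1 C (fun _ => 1) + 1)) := by
    have h1 : ∀ᶠ i in atTop, Iw C (C.n * r * k i) (s i) (lam i) (t i) (fun _ => 1) <
        I1 C (fun _ => 1) + 1 :=
      hI2.eventually_lt_const (by linarith)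
    filter_upwards [hU2, h1] with i hi1 hi2
    obtain ⟨r1, r2, r3, -, -, -, r7⟩ := R i
    rw [r7]
    have hb := iwBound C (C.n * r * k i) (N i) (s i) (lam i) (t i) ((Λ : ℝ) * k i) Λ hm1 (hD i)
      (hL0 i).le hS1o.measurableSet (fun z hz => (E i z hz).1)
      (fun z hz => ⟨(E i z hz).2.2.2.1, (E i z hz).2.2.2.2.1, (E i z hz).2.2.2.2.2.1,
        (E i z hz).2.2.2.2.2.2.1⟩) r1 r2 r3 (haL i) hi1
    have h2 : (1 + 2 * (Λ : ℝ) ^ 2) * Iw C (C.n * r * k i) (s i) (lam i) (t i) (fun _ => 1) ≤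
        (1 + 2 * (Λ : ℝ) ^ 2) * (I1 C (fun _ => 1) + 1) :=
      mul_le_mul_of_nonneg_left hi2.le (by positivity)
    exact mul_le_mul_of_nonneg_left (hb.trans h2) (by positivity)
  set Ab : ℝ := C.m * C.m.factorial * ((1 + 2 * (Λ : ℝ) ^ 2) * (I1 C (fun _ => 1) + 1)) with hAb
  have hAb0 : 0 ≤ Ab := by
    rw [hAb]
    have : 0 ≤ I1 C (fun _ => 1) + 1 := by linarith
    positivity
  -- bounds on K
  obtain ⟨Mu, hMu⟩ := hK.exists_bound_of_continuousOn (huc.mono hKU)
  have hJc : Continuous fun z => ‖ev C.J z‖ ^ 2 := (MvPolynomial.continuous_eval C.J).norm.pow 2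
  have hJ0 : ∀ z ∈ C.U, 0 < ‖ev C.J z‖ ^ 2 := fun z hz => by
    have := norm_pos_iff.mpr (hG.J0 z hz)
    positivity
  obtain ⟨c0, hc0⟩ := hK.exists_bound_of_continuousOn
    (f := fun z => Real.exp (C.u z + 1) / ‖ev C.J z‖ ^ 2)
    (((Real.continuous_exp.comp_continuousOn ((huc.mono hKU).add continuousOn_const))).div
      hJc.continuousOn fun z hz => (hJ0 z (hKU hz)).ne')
  -- the cutoff function
  obtain ⟨F, hF, hFc, hFU, hF1⟩ := stk_cut hK hUo hKU
  set χ : (Fin C.m → ℂ) → ℝ := fun z => F z * F z with hχ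
  have hχs : ContDiff ℝ ∞ χ := hF.mul hF
  have hχsub : tsupport χ ⊆ tsupport F := by
    apply closure_mono
    intro z hz h0
    apply hz
    simp [hχ, h0]
  have hχc : HasCompactSupport χ := hFc.of_isClosed_subset (isClosed_tsupport _) hχsub
  have hχU : tsupport χ ⊆ C.U := hχsub.trans hFU
  have hχ1 : ∀ z ∈ K, χ z = 1 := by
    intro z hz
    have : F z = 1 := (hF1 z hz).self_of_nhds
    simp [hχ, this]
  obtain ⟨Mχ, hMχ⟩ := (show IsCompact (tsupport χ) from hχc).exists_bound_of_continuousOn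
    (huc.mono hχU)
  set G : Fin C.m → ℝ := fun j => ∫ z, ‖db j (dz j (cf χ)) z‖ with hGdef
  have hG0 : ∀ j, 0 ≤ G j := fun j => integral_nonneg fun z => norm_nonneg _
  refine ⟨(|Mu| + 1) + (|Mu| + 1) * Λ + |c0| * Ab + ∑ j, (|Mχ| + 1) * G j, ?_⟩
  have hΛ0 : (0 : ℝ) ≤ Λ := Nat.cast_nonneg _
  have hsum0 : 0 ≤ ∑ j, (|Mχ| + 1) * G j :=
    Finset.sum_nonneg fun j _ => mul_nonneg (by positivity) (hG0 j)
  filter_upwards [hA, hW4 K hKU hK 1 one_pos, hW4 (tsupport χ) hχU hχc 1 one_pos] with i hi1 hi2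
    hi3
  obtain ⟨-, q1, q2, q3, q4⟩ := Q i
  obtain ⟨-, -, -, -, -, r6, -⟩ := R i
  have hpsi : ∀ z ∈ K, |psi C (C.n * r * k i) (s i) (lam i) (t i) z| ≤ |Mu| + 1 := by
    intro z hz
    rw [abs_of_pos (q4 z (hKU hz)).1]
    have h1 := hi2 z hz
    have h2 := hMu z hz
    have h3 : C.u z ≤ |C.u z| := le_abs_self _
    have h4 : Mu ≤ |Mu| := le_abs_self _
    rw [Real.norm_eq_abs] at h2
    linarith
  refine ⟨fun z hz => ⟨?_, ?_⟩, fun j => ?_⟩
  · -- psi1
    have h1 := hpsi z hz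
    obtain ⟨-, -, -, e1, e2, -⟩ := E i z (hKU hz)
    have hd : (0 : ℝ) < 2 * ((C.n * r * k i : ℕ) : ℝ) := by
      have : (0 : ℝ) < ((C.n * r * k i : ℕ) : ℝ) := by exact_mod_cast hD i
      linarith
    have h2 : F1 (s i) (lam i) (t i) z / (2 * ((C.n * r * k i : ℕ) : ℝ)) ≤ Λ := by
      have h3 : F1 (s i) (lam i) (t i) z / (2 * ((C.n * r * k i : ℕ) : ℝ)) ≤
          ((Λ : ℝ) * k i) / (2 * ((C.n * r * k i : ℕ) : ℝ)) :=
        div_le_div_of_nonneg_right e2 hd.le
      have h4 : ((Λ : ℝ) * k i) / (2 * ((C.n * r * k i : ℕ) : ℝ)) ≤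
          (C.m / (2 * ((C.n * r * k i : ℕ) : ℝ)) : ℝ) * ((Λ : ℝ) * k i) := by
        rw [div_mul_eq_mul_div]
        apply div_le_div_of_nonneg_right _ hd.le
        have : (1 : ℝ) ≤ C.m := by exact_mod_cast hm1
        exact le_mul_of_one_le_left (hL0 i).le this
      exact h3.trans (h4.trans (haL i))
    have h5 : 0 ≤ F1 (s i) (lam i) (t i) z / (2 * ((C.n * r * k i : ℕ) : ℝ)) :=
      div_nonneg e1 hd.le
    have h6 : |psi1 C (C.n * r * k i) (s i) (lam i) (t i) z| ≤ (|Mu| + 1) * Λ := by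
      unfold psi1
      rw [abs_mul, abs_of_nonneg h5]
      exact mul_le_mul h1 h2 h5 (by positivity)
    have h7 : 0 ≤ |c0| * Ab := mul_nonneg (abs_nonneg _) hAb0
    have h8 : 0 ≤ |Mu| + 1 := by positivity
    linarith
  · have h1 := hpsi z hz
    have h7 : 0 ≤ |c0| * Ab := mul_nonneg (abs_nonneg _) hAb0
    have h8 : 0 ≤ (|Mu| + 1) * (Λ : ℝ) := by positivity
    linarith
  · -- the derivatives
    have hhes0 : ∀ z ∈ C.U,
        0 ≤ (hes (psi C (C.n * r * k i) (s i) (lam i) (t i)) z j j).re := by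
      intro z hz
      have h1 := (q4 z hz).2.1.2 (Pi.single j 1)
      unfold hf at h1
      simpa [Pi.single_apply] using h1
    have hcdz : ContinuousOn
        (fun z => ‖dz j (cf (psi1 C (C.n * r * k i) (s i) (lam i) (t i))) z‖) C.U :=
      (stk_cdz hUo j _ (stk_cf _ q2)).continuousOn.norm
    have hchs : ContinuousOn
        (fun z => (hes (psi C (C.n * r * k i) (s i) (lam i) (t i)) z j j).re) C.U :=
      Complex.continuous_re.comp_continuousOn
        (stk_cdz hUo j _ (stk_cdb hUo j _ (stk_cf _ q1))).continuousOn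
    have hpt : ∀ z ∈ K, ‖dz j (cf (psi1 C (C.n * r * k i) (s i) (lam i) (t i))) z‖ ≤
        (psi2 C (C.n * r * k i) (s i) (lam i) (t i) z +
          (hes (psi C (C.n * r * k i) (s i) (lam i) (t i)) z j j).re) / 2 := by
      intro z hz
      obtain ⟨-, -, a3, a4, -⟩ := q4 z (hKU hz)
      have h1 := a4 (Pi.single j 1)
      have h2 : ‖dz j (cf (psi1 C (C.n * r * k i) (s i) (lam i) (t i))) z‖ ^ 2 ≤
          psi2 C (C.n * r * k i) (s i) (lam i) (t i) z *
            (hes (psi C (C.n * r * k i) (s i) (lam i) (t i)) z j j).re := by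
        unfold hf at h1
        simpa [Pi.single_apply] using h1
      exact amgm a3 (hhes0 z (hKU hz)) h2
    have hi2K : IntegrableOn (psi2 C (C.n * r * k i) (s i) (lam i) (t i)) K :=
      (q3.mono hKU).integrableOn_compact hK
    have hihK : IntegrableOn
        (fun z => (hes (psi C (C.n * r * k i) (s i) (lam i) (t i)) z j j).re) K :=
      (hchs.mono hKU).integrableOn_compact hK
    have b1 : ∫ z in K, ‖dz j (cf (psi1 C (C.n * r * k i) (s i) (lam i) (t i))) z‖ ≤
        ((∫ z in K, psi2 C (C.n * r * k i) (s i) (lam i) (t i) z) +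
          ∫ z in K, (hes (psi C (C.n * r * k i) (s i) (lam i) (t i)) z j j).re) / 2 := by
      rw [← integral_add hi2K hihK, ← integral_div]
      exact setIntegral_mono_on ((hcdz.mono hKU).integrableOn_compact hK)
        ((hi2K.add hihK).div_const 2) hK.measurableSet hpt
    have b2 : ∫ z in K, psi2 C (C.n * r * k i) (s i) (lam i) (t i) z ≤ |c0| * Ab := by
      have h1 : ∫ z in K, psi2 C (C.n * r * k i) (s i) (lam i) (t i) z ≤
          ∫ z in K, |c0| * (psi2 C (C.n * r * k i) (s i) (lam i) (t i) z *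
            Real.exp (-psi C (C.n * r * k i) (s i) (lam i) (t i) z) * ‖ev C.J z‖ ^ 2) := by
        refine setIntegral_mono_on hi2K ((r6.mono_set hKU).const_mul _) hK.measurableSet ?_
        intro z hz
        apply expBound (u := C.u z) (q4 z (hKU hz)).2.2.1 (hJ0 z (hKU hz)) (hi2 z hz)
        have h2 := hc0 z hz
        rw [Real.norm_eq_abs] at h2
        exact (le_abs_self _).trans (h2.trans (le_abs_self _))
      rw [integral_const_mul] at h1
      have h2 : ∫ z in K, (psi2 C (C.n * r * k i) (s i) (lam i) (t i) z *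
            Real.exp (-psi C (C.n * r * k i) (s i) (lam i) (t i) z) * ‖ev C.J z‖ ^ 2) ≤
          ∫ z in C.U, (psi2 C (C.n * r * k i) (s i) (lam i) (t i) z *
            Real.exp (-psi C (C.n * r * k i) (s i) (lam i) (t i) z) * ‖ev C.J z‖ ^ 2) := by
        refine setIntegral_mono_set r6 ?_ hKU.eventuallyLE
        refine (ae_restrict_iff' hUo.measurableSet).2 (ae_of_all _ fun z hz => ?_)
        have h3 := (q4 z hz).2.2.1
        have h4 := (hJ0 z hz).le
        exact mul_nonneg (mul_nonneg h3 (Real.exp_pos _).le) h4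
      exact h1.trans (mul_le_mul_of_nonneg_left (h2.trans hi1) (abs_nonneg _))
    have b3 : ∫ z in K, (hes (psi C (C.n * r * k i) (s i) (lam i) (t i)) z j j).re ≤
        (|Mχ| + 1) * G j := by
      refine hess_int hIBP hUo hχs hχc hχU (fun z => mul_self_nonneg _) hK hχ1 q1 j hhes0
        (|Mχ| + 1) ?_
      intro z hz
      rw [abs_of_pos (q4 z (hχU hz)).1]
      have h1 := hi3 z hz
      have h2 := hMχ z hz
      have h3 : C.u z ≤ |C.u z| := le_abs_self _
      have h4 : Mχ ≤ |Mχ| := le_abs_self _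
      rw [Real.norm_eq_abs] at h2
      linarith
    have b4 : (|Mχ| + 1) * G j ≤ ∑ j, (|Mχ| + 1) * G j :=
      Finset.single_le_sum (f := fun j => (|Mχ| + 1) * G j)
        (fun j _ => mul_nonneg (by positivity) (hG0 j)) (Finset.mem_univ j)
    have h7 : 0 ≤ |c0| * Ab := mul_nonneg (abs_nonneg _) hAb0
    have h8 : 0 ≤ (|Mu| + 1) * (Λ : ℝ) := by positivity
    have h9 : 0 ≤ |Mu| + 1 := by positivity
    linarith

end Pool.Agent.Helper28.KP
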